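import Pool.Agent.H97.PRP.Targets2

/-!
# MP_e37c09_lc, row BOD of prp_modules: the transfer set is definable from `s` and ordinals
-/

open Ordinal Cardinal Order Set
open scoped ZFSet

universe u

namespace Pool.Agent.H4.PRP

open _root_.HD HD.PRK HD.PRP

/-- splitting, at the level of sets -/
private def SZ (μ ρ : Ordinal.{u}) (F i : ZFSet.{u}) : Prop :=
  μ.toZFSet.IsOrdinal ∧ ρ.toZFSet.IsOrdinal ∧ i.IsOrdinal ∧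
    Spl μ.toZFSet.rank ρ.toZFSet.rank F i.rank

private theorem sz_dz (h0 : HD.PRK.T_LOC.{u}) (μ ρ : Ordinal.{u}) :
    DZ.{u} fun v => SZ μ ρ (v 0) (v 1) := by
  have a1 : DZ.{u} fun v => μ.toZFSet.IsOrdinal ∧ (v 0).IsOrdinal ∧ (v 2).IsOrdinal ∧
      Spl μ.toZFSet.rank (v 0).rank (v 1) (v 2).rank :=
    DZ.od (R := fun b v => b.IsOrdinal ∧ (v 0).IsOrdinal ∧ (v 2).IsOrdinal ∧
      Spl b.rank (v 0).rank (v 1) (v 2).rank) (OD.ordinal μ) h0.dz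
  exact DZ.od (R := fun b v => μ.toZFSet.IsOrdinal ∧ b.IsOrdinal ∧ (v 1).IsOrdinal ∧
      Spl μ.toZFSet.rank b.rank (v 0) (v 1).rank) (OD.ordinal ρ) a1

private theorem sz_iff (μ ρ i : Ordinal.{u}) (F : ZFSet.{u}) :
    SZ μ ρ F i.toZFSet ↔ Spl μ ρ F i := by
  unfold SZ
  rw [rank_toZFSet, rank_toZFSet, rank_toZFSet]
  exact ⟨fun h => h.2.2.2, fun h => ⟨ZFSet.isOrdinal_toZFSet _, ZFSet.isOrdinal_toZFSet _,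
    ZFSet.isOrdinal_toZFSet _, h⟩⟩

/-- `Y` is the splitting point with number `A`, at the level of sets -/
private def NZ (μ κ : Ordinal.{u}) (k F A Y : ZFSet.{u}) : Prop :=
  Y ∈ k ∧ SZ μ κ F Y ∧ ∃ t, (∀ z, z ∈ t ↔ z ∈ Y ∧ z ∈ k ∧ SZ μ κ F z) ∧ ∃ g, EnZ A t g

private theorem nz_iff (μ κ a y : Ordinal.{u}) (F : ZFSet.{u}) :
    NZ μ κ κ.toZFSet F a.toZFSet y.toZFSet ↔ nth (SpS μ κ F) a y := by
  have e : ∀ z, z ∈ os y (SpS μ κ F) ↔ z ∈ y.toZFSet ∧ z ∈ κ.toZFSet ∧ SZ μ κ F z := by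
    intro z
    rw [mem_os]
    constructor
    · rintro ⟨b, hb, ⟨h3, h4⟩, rfl⟩
      exact ⟨toZFSet_mem_toZFSet_iff.2 hb, toZFSet_mem_toZFSet_iff.2 h3, (sz_iff _ _ _ _).2 h4⟩
    · rintro ⟨h3, h4, h5⟩
      obtain ⟨b, hb, rfl⟩ := mem_toZFSet_iff.1 h3
      exact ⟨b, hb, ⟨toZFSet_mem_toZFSet_iff.1 h4, (sz_iff _ _ _ _).1 h5⟩, rfl⟩
  rw [nth_iff]
  constructor
  · rintro ⟨h1, h2, t, ht, g, hg⟩
    have e' : t = os y (SpS μ κ F) := by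
      ext z
      rw [ht, e]
    rw [e'] at hg
    exact ⟨⟨toZFSet_mem_toZFSet_iff.1 h1, (sz_iff _ _ _ _).1 h2⟩, g, hg⟩
  · rintro ⟨hy, g, hg⟩
    exact ⟨toZFSet_mem_toZFSet_iff.2 hy.1, (sz_iff _ _ _ _).2 hy.2, _, e, g, hg⟩

private theorem nz_dz (h0 : HD.PRK.T_LOC.{u}) (μ κ : Ordinal.{u}) :
    DZ.{u} fun v => NZ μ κ (v 0) (v 1) (v 2) (v 3) := by
  refine (DZ.mem 3 0).and (DZ.and ?_ ?_)
  · exact (sz_dz h0 μ κ).ren fun n => if n = 0 then 1 else 3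
  · refine DZ.ex (R := fun t v => (∀ z, z ∈ t ↔ z ∈ v 3 ∧ z ∈ v 0 ∧ SZ μ κ (v 1) z) ∧
      ∃ g, EnZ (v 2) t g) ?_
    refine DZ.and (DZ.all ((DZ.mem 0 1).iff ((DZ.mem 0 5).and ((DZ.mem 0 2).and ?_))))
      (DZ.ex (dz_EnZ 4 1 0))
    exact (sz_dz h0 μ κ).ren fun n => if n = 0 then 3 else 0

/-- the transfer set, at the level of sets -/
private def BZ (μ κ ρ : Ordinal.{u}) (k l F A : ZFSet.{u}) : Prop :=
  ∃ Y, ∃ I ∈ l, NZ μ κ k F A Y ∧ SZ μ ρ F I ∧ (I ∈ Y ∨ I = Y) ∧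
    ∀ A' ∈ A, ∀ Y', NZ μ κ k F A' Y' → Y' ∈ I

private theorem bz_iff (μ κ ρ lam a : Ordinal.{u}) (F : ZFSet.{u}) :
    BZ μ κ ρ κ.toZFSet lam.toZFSet F a.toZFSet ↔ a ∈ BB μ κ ρ lam F := by
  constructor
  · rintro ⟨Y, I, hI, h1, h2, h3, h4⟩
    obtain ⟨y, -, rfl⟩ := mem_toZFSet_iff.1 h1.1
    obtain ⟨i, hi, rfl⟩ := mem_toZFSet_iff.1 hI
    refine ⟨y, i, (nz_iff _ _ _ _ _).1 h1, (sz_iff _ _ _ _).1 h2, hi, ?_, fun a' y' h5 h6 => ?_⟩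
    · rcases h3 with h3 | h3
      · exact (toZFSet_mem_toZFSet_iff.1 h3).le
      · exact (toZFSet_injective h3).le
    · exact toZFSet_mem_toZFSet_iff.1 (h4 _ (toZFSet_mem_toZFSet_iff.2 h6) _
        ((nz_iff _ _ _ _ _).2 h5))
  · rintro ⟨y, i, h1, h2, hi, h3, h4⟩
    refine ⟨y.toZFSet, i.toZFSet, toZFSet_mem_toZFSet_iff.2 hi, (nz_iff _ _ _ _ _).2 h1,
      (sz_iff _ _ _ _).2 h2, ?_, fun A' hA' Y' h5 => ?_⟩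
    · rcases h3.lt_or_eq with h3 | h3
      · exact Or.inl (toZFSet_mem_toZFSet_iff.2 h3)
      · exact Or.inr (by rw [h3])
    · obtain ⟨a', ha', rfl⟩ := mem_toZFSet_iff.1 hA'
      obtain ⟨y', -, rfl⟩ := mem_toZFSet_iff.1 h5.1
      exact toZFSet_mem_toZFSet_iff.2 (h4 a' y' ((nz_iff _ _ _ _ _).1 h5) ha')

private theorem bz_dz (h0 : HD.PRK.T_LOC.{u}) (μ κ ρ : Ordinal.{u}) :
    DZ.{u} fun v => BZ μ κ ρ (v 0) (v 1) (v 2) (v 3) := by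
  refine DZ.ex (R := fun Y v => ∃ I ∈ v 1, NZ μ κ (v 0) (v 2) (v 3) Y ∧ SZ μ ρ (v 2) I ∧
    (I ∈ Y ∨ I = Y) ∧ ∀ A' ∈ v 3, ∀ Y', NZ μ κ (v 0) (v 2) A' Y' → Y' ∈ I) ?_
  refine DZ.exMem (R := fun I v => NZ μ κ (v 1) (v 3) (v 4) (v 0) ∧ SZ μ ρ (v 3) I ∧
    (I ∈ v 0 ∨ I = v 0) ∧ ∀ A' ∈ v 4, ∀ Y', NZ μ κ (v 1) (v 3) A' Y' → Y' ∈ I) 2 ?_
  refine DZ.and ?_ (DZ.and ?_ (DZ.and ((DZ.mem 0 1).or (DZ.eq 0 1)) ?_))
  · exact (nz_dz h0 μ κ).ren fun n => if n = 0 then 2 else if n = 1 then 4 else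
      if n = 2 then 5 else 1
  · exact (sz_dz h0 μ ρ).ren fun n => if n = 0 then 4 else 0
  · refine DZ.allMem (R := fun A' v => ∀ Y', NZ μ κ (v 2) (v 4) A' Y' → Y' ∈ v 0) 5 ?_
    refine DZ.all (R := fun Y' v => NZ μ κ (v 3) (v 5) (v 0) Y' → Y' ∈ v 1) ?_
    refine DZ.imp ?_ (DZ.mem 0 2)
    exact (nz_dz h0 μ κ).ren fun n => if n = 0 then 4 else if n = 1 then 6 else
      if n = 2 then 1 else 0

theorem pf_BOD (h0 : HD.PRK.T_LOC.{u}) (h1 : HD.PRP.T_FS.{u}) : HD.PRP.T_BOD.{u} := by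
  intro μ κ ρ lam α G s hG
  refine Pool.Agent.H45.NF.ODp.of_dz
    (Q := fun v => v 0 = os α (BB μ κ ρ lam (Fs κ G (v 1)))) ?_ fun y => Iff.rfl
  refine DZ.congr (P := fun v => ∃ F, F = Fs κ G (v 1) ∧ ∀ z, z ∈ v 0 ↔ z ∈ α.toZFSet ∧
    BZ μ κ ρ κ.toZFSet lam.toZFSet F z) ?_ fun v => ?_
  · refine DZ.od (R := fun k v => ∃ F, F = Fs κ G (v 1) ∧ ∀ z, z ∈ v 0 ↔ z ∈ α.toZFSet ∧
      BZ μ κ ρ k lam.toZFSet F z) (OD.ordinal κ) ?_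
    refine DZ.od (R := fun l v => ∃ F, F = Fs κ G (v 2) ∧ ∀ z, z ∈ v 1 ↔ z ∈ α.toZFSet ∧
      BZ μ κ ρ (v 0) l F z) (OD.ordinal lam) ?_
    refine DZ.od (R := fun b v => ∃ F, F = Fs κ G (v 3) ∧ ∀ z, z ∈ v 2 ↔ z ∈ b ∧
      BZ μ κ ρ (v 1) (v 0) F z) (OD.ordinal α) ?_
    refine DZ.ex (R := fun F v => F = Fs κ G (v 4) ∧ ∀ z, z ∈ v 3 ↔ z ∈ v 0 ∧
      BZ μ κ ρ (v 2) (v 1) F z) (DZ.and ?_ ?_)
    · exact (h1 κ G hG).ren fun n => if n = 0 then 0 else 5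
    · refine DZ.all (R := fun z v => z ∈ v 4 ↔ z ∈ v 1 ∧ BZ μ κ ρ (v 3) (v 2) (v 0) z) ?_
      refine (DZ.mem 0 5).iff ((DZ.mem 0 2).and ?_)
      exact (bz_dz h0 μ κ ρ).ren fun n => if n = 0 then 4 else if n = 1 then 3 else
        if n = 2 then 1 else 0
  · have key : ∀ z : ZFSet.{u}, z ∈ os α (BB μ κ ρ lam (Fs κ G (v 1))) ↔ z ∈ α.toZFSet ∧
        BZ μ κ ρ κ.toZFSet lam.toZFSet (Fs κ G (v 1)) z := by
      intro z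
      rw [mem_os]
      constructor
      · rintro ⟨a, ha, hB, rfl⟩
        exact ⟨toZFSet_mem_toZFSet_iff.2 ha, (bz_iff _ _ _ _ _ _).2 hB⟩
      · rintro ⟨hz, hB⟩
        obtain ⟨a, ha, rfl⟩ := mem_toZFSet_iff.1 hz
        exact ⟨a, ha, (bz_iff _ _ _ _ _ _).1 hB, rfl⟩
    constructor
    · intro h
      refine ⟨_, rfl, fun z => ?_⟩
      rw [h]
      exact key z
    · rintro ⟨F, rfl, h⟩
      ext z
      rw [h z, key z]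

end Pool.Agent.H4.PRP
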